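import Pool.Agent.Helper59.BZ.Charges

/-!
# The number of equilibria of point charges, averaged over the signs of the charges

`potential`, `equilibria` and `HasNondegenerateHessianAt` are the definitions of the frozen
statements of the problem.  `signed e q` is the family of charges `e_j q_j` (`e_j = 1` or `-1`) and
`ndeq q a` is the set of the non-degenerate equilibria of the configuration `(q, a)`
(all equilibria, if all of them are non-degenerate, as the question assumes).
-/

set_option autoImplicit false

open N62f3cee0 Pool.Agent.Helper59.BZ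

namespace Pool.Agent.Results.MP_992d6e_an.SignAverage

/-- For all `n ≥ 1`, all strengths `q` and all positions `a`, the number of non-degenerate equilibria
of the charges `e_j q_j`, summed over the `2^n` choices of the signs `e`, is at most
`2^n (3n-2)^3`.  Hence at most `2^n / K` choices of the signs give more than `K (3n-2)^3`
non-degenerate equilibria, and every single configuration has at most `2^(n-1) (3n-2)^3`. -/
theorem result (n : ℕ) (hn : 1 ≤ n) (q : Fin n → ℝ) (a : Fin n → EuclideanSpace ℝ (Fin 3)) :
    (∀ e : Fin n → ℤˣ, (ndeq (signed e q) a).Finite) ∧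
    ∑ e : Fin n → ℤˣ, (ndeq (signed e q) a).ncard ≤ 2 ^ n * (3 * n - 2) ^ 3 ∧
    (∀ K : ℕ, K * (Finset.univ.filter (fun e : Fin n → ℤˣ =>
      K * (3 * n - 2) ^ 3 < (ndeq (signed e q) a).ncard)).card ≤ 2 ^ n) ∧
    (ndeq q a).ncard ≤ 2 ^ (n - 1) * (3 * n - 2) ^ 3 :=
  ⟨ndeq_finite hn q a, sum_bound hn q a, markov hn q a, (individual hn q a).2⟩

end Pool.Agent.Results.MP_992d6e_an.SignAverage
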